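import Mathlib
import Pool.Agent.N167.DY.Stm

/-!
# DY/2: the clamped Galerkin system has solutions (Picard–Lindelöf)
-/

set_option autoImplicit false

namespace Pool.Agent.N134.DY

open Set Pool.Agent.N167.DY
open scoped NNReal

/-- extension by zero -/
noncomputable def ext (N : ℕ) (w : Fin (N + 1) → ℝ) (m : ℕ) : ℝ :=
  if h : m < N + 1 then w ⟨m, h⟩ else 0

theorem abs_ext_sub (N : ℕ) (w w' : Fin (N + 1) → ℝ) (m : ℕ) :
    |ext N w m - ext N w' m| ≤ dist w w' := by
  unfold ext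
  split_ifs with h
  · rw [← Real.dist_eq]
    exact dist_le_pi_dist w w' _
  · simp

theorem clamp_nonneg (A x : ℝ) : 0 ≤ clamp A x := le_max_left _ _

theorem clamp_le {A : ℝ} (hA : 0 ≤ A) (x : ℝ) : clamp A x ≤ A :=
  max_le hA (min_le_right _ _)

theorem abs_clamp_sub (A x y : ℝ) : |clamp A x - clamp A y| ≤ |x - y| := by
  unfold clamp
  have h1 := abs_max_sub_max_le_max 0 (min x A) 0 (min y A)
  have h2 := abs_min_sub_min_le_max x A y A
  simp only [sub_self, abs_zero] at h1 h2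
  rw [max_eq_right (abs_nonneg (min x A - min y A))] at h1
  rw [max_eq_left (abs_nonneg (x - y))] at h2
  exact h1.trans h2

/-- Lipschitz constant of shell `n` -/
noncomputable def Kn (β ν : ℝ) (A : ℕ → ℝ) : ℕ → ℝ
  | 0 => |ν| * 4 ^ 0 + |kk β 0| * (A 0 + A 1)
  | n + 1 => |ν| * 4 ^ (n + 1) + |kk β n| * (2 * A n) + |kk β (n + 1)| * (A (n + 1) + A (n + 2))

/-- bound of the field of shell `n` -/
noncomputable def Bn (β ν : ℝ) (A : ℕ → ℝ) : ℕ → ℝ
  | 0 => |ν| * 4 ^ 0 * A 0 + |kk β 0| * (A 0 * A 1)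
  | n + 1 => |ν| * 4 ^ (n + 1) * A (n + 1) + |kk β n| * (A n) ^ 2
      + |kk β (n + 1)| * (A (n + 1) * A (n + 2))

theorem Kn_nonneg (β ν : ℝ) {A : ℕ → ℝ} (hA : ∀ n, 0 ≤ A n) (n : ℕ) : 0 ≤ Kn β ν A n := by
  cases n with
  | zero => have := hA 0; have := hA 1; unfold Kn; positivity
  | succ n => have := hA n; have := hA (n + 1); have := hA (n + 2); unfold Kn; positivity

theorem Bn_nonneg (β ν : ℝ) {A : ℕ → ℝ} (hA : ∀ n, 0 ≤ A n) (n : ℕ) : 0 ≤ Bn β ν A n := by
  cases n with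
  | zero => have := hA 0; have := hA 1; unfold Bn; positivity
  | succ n => have := hA n; have := hA (n + 1); have := hA (n + 2); unfold Bn; positivity

section est

variable {β ν δ : ℝ} {A g X Y : ℕ → ℝ} (hA : ∀ n, 0 ≤ A n) (hX : ∀ n, |X n| ≤ A n)
  (hY : ∀ n, |Y n| ≤ A n) (hXY : ∀ n, |X n - Y n| ≤ δ)

include hX hY hXY in
theorem prod_sub_le (m n : ℕ) : |X m * X n - Y m * Y n| ≤ (A m + A n) * δ := by
  have e : X m * X n - Y m * Y n = X m * (X n - Y n) + (X m - Y m) * Y n := by ring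
  rw [e]
  refine (abs_add_le _ _).trans ?_
  rw [abs_mul, abs_mul]
  have a1 : |X m| * |X n - Y n| ≤ A m * δ :=
    mul_le_mul (hX m) (hXY n) (abs_nonneg _) ((abs_nonneg _).trans (hX m))
  have a2 : |X m - Y m| * |Y n| ≤ δ * A n :=
    mul_le_mul (hXY m) (hY n) (abs_nonneg _) ((abs_nonneg _).trans (hXY m))
  linarith

include hX hY hXY in
theorem rhs_sub_le (n : ℕ) : |rhs β ν g X n - rhs β ν g Y n| ≤ Kn β ν A n * δ := by
  have p1 := prod_sub_le hX hY hXY n (n + 1)
  have e : rhs β ν g X n - rhs β ν g Y n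
      = -(ν * 4 ^ n * (X n - Y n)) + (inflow β X n - inflow β Y n)
        - kk β n * (X n * X (n + 1) - Y n * Y (n + 1)) := by
    unfold rhs; ring
  rw [e]
  have b1 : |-(ν * 4 ^ n * (X n - Y n))| ≤ |ν| * 4 ^ n * δ := by
    rw [abs_neg, abs_mul, abs_mul, abs_pow, abs_of_pos (by norm_num : (0 : ℝ) < 4)]
    have := hXY n
    gcongr
  have b3 : |kk β n * (X n * X (n + 1) - Y n * Y (n + 1))| ≤ |kk β n| * ((A n + A (n + 1)) * δ) := by
    rw [abs_mul]; gcongr
  have b4 := abs_sub (-(ν * 4 ^ n * (X n - Y n)) + (inflow β X n - inflow β Y n))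
    (kk β n * (X n * X (n + 1) - Y n * Y (n + 1)))
  have b5 := abs_add_le (-(ν * 4 ^ n * (X n - Y n))) (inflow β X n - inflow β Y n)
  cases n with
  | zero =>
    have b2 : |inflow β X 0 - inflow β Y 0| = 0 := by simp [inflow]
    unfold Kn
    linarith
  | succ n =>
    have b2 : |inflow β X (n + 1) - inflow β Y (n + 1)| ≤ |kk β n| * (2 * A n) * δ := by
      have p2 := prod_sub_le hX hY hXY n n
      have e2 : inflow β X (n + 1) - inflow β Y (n + 1) = kk β n * (X n * X n - Y n * Y n) := by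
        unfold inflow; ring
      rw [e2, abs_mul, mul_assoc]
      have : (A n + A n) * δ = 2 * A n * δ := by ring
      rw [this] at p2
      gcongr
    unfold Kn
    linarith

include hX in
theorem rhs_le (n : ℕ) : |rhs β ν g X n| ≤ |g n| + Bn β ν A n := by
  have q : ∀ m n, |X m * X n| ≤ A m * A n := fun m n => by
    rw [abs_mul]
    exact mul_le_mul (hX m) (hX n) (abs_nonneg _) ((abs_nonneg _).trans (hX m))
  have b1 : |-(ν * 4 ^ n * X n)| ≤ |ν| * 4 ^ n * A n := by
    rw [abs_neg, abs_mul, abs_mul, abs_pow, abs_of_pos (by norm_num : (0 : ℝ) < 4)]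
    have := hX n
    gcongr
  have e : rhs β ν g X n = g n + -(ν * 4 ^ n * X n) + inflow β X n
      - kk β n * (X n * X (n + 1)) := by unfold rhs; ring
  have b3 : |kk β n * (X n * X (n + 1))| ≤ |kk β n| * (A n * A (n + 1)) := by
    rw [abs_mul]
    have := q n (n + 1)
    gcongr
  rw [e]
  have b4 := abs_sub (g n + -(ν * 4 ^ n * X n) + inflow β X n) (kk β n * (X n * X (n + 1)))
  have b5 := abs_add_le (g n + -(ν * 4 ^ n * X n)) (inflow β X n)
  have b6 := abs_add_le (g n) (-(ν * 4 ^ n * X n))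
  cases n with
  | zero =>
    have b2 : |inflow β X 0| = 0 := by simp [inflow]
    unfold Bn
    linarith
  | succ n =>
    have b2 : |inflow β X (n + 1)| ≤ |kk β n| * (A n) ^ 2 := by
      have e2 : inflow β X (n + 1) = kk β n * (X n * X n) := by
        unfold inflow; ring
      rw [e2, abs_mul, sq]
      have := q n n
      gcongr
    unfold Bn
    linarith

end est

theorem s_clamped : S_clamped := by
  intro β ν f x A N T hT hA hf
  set c : (Fin (N + 1) → ℝ) → ℕ → ℝ := fun w m => clamp (A m) (ext N w m) with hc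
  set v : ℝ → (Fin (N + 1) → ℝ) → Fin (N + 1) → ℝ :=
    fun t w i => rhs β ν (fun m => f m t) (c w) i with hv
  have hcA : ∀ w m, |c w m| ≤ A m := fun w m => by
    rw [abs_of_nonneg (clamp_nonneg _ _)]; exact clamp_le (hA m) _
  have hcd : ∀ w w' m, |c w m - c w' m| ≤ dist w w' := fun w w' m =>
    (abs_clamp_sub _ _ _).trans (abs_ext_sub N w w' m)
  -- constants
  have hK0 : 0 ≤ ∑ i ∈ Finset.range (N + 1), Kn β ν A i :=
    Finset.sum_nonneg fun i _ => Kn_nonneg β ν hA i
  have hKi : ∀ i : Fin (N + 1), Kn β ν A i ≤ ∑ i ∈ Finset.range (N + 1), Kn β ν A i := fun i =>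
    Finset.single_le_sum (f := fun i => Kn β ν A i) (fun i _ => Kn_nonneg β ν hA i)
      (Finset.mem_range.2 i.2)
  have hM : ∀ n, ∃ M : ℝ, 0 ≤ M ∧ ∀ t ∈ Icc (0 : ℝ) T, |f n t| ≤ M := by
    intro n
    obtain ⟨M, hM⟩ := isCompact_Icc.exists_bound_of_continuousOn (hf n)
    exact ⟨max M 0, le_max_right _ _, fun t ht => (hM t ht).trans (le_max_left _ _)⟩
  choose M hM0 hM using hM
  set L : ℝ := ∑ i ∈ Finset.range (N + 1), (M i + Bn β ν A i) with hL
  have hL0 : 0 ≤ L := Finset.sum_nonneg fun i _ => add_nonneg (hM0 i) (Bn_nonneg β ν hA i)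
  have hLi : ∀ i : Fin (N + 1), M i + Bn β ν A i ≤ L := fun i =>
    Finset.single_le_sum (f := fun i => M i + Bn β ν A i)
      (fun i _ => add_nonneg (hM0 i) (Bn_nonneg β ν hA i)) (Finset.mem_range.2 i.2)
  have h0 : (0 : ℝ) ∈ Icc (0 : ℝ) T := ⟨le_rfl, hT.le⟩
  set x0 : Fin (N + 1) → ℝ := fun i => x i with hx0
  have hPL : IsPicardLindelof v (⟨0, h0⟩ : Icc (0 : ℝ) T) x0 (⟨L, hL0⟩ * ⟨T, hT.le⟩) 0 ⟨L, hL0⟩
      ⟨_, hK0⟩ := by
    refine ⟨?_, ?_, ?_, ?_⟩
    · intro t _
      apply LipschitzWith.lipschitzOnWith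
      apply LipschitzWith.of_dist_le_mul
      intro w w'
      rw [dist_pi_le_iff (by positivity)]
      intro i
      rw [Real.dist_eq]
      have := rhs_sub_le (β := β) (ν := ν) (g := fun m => f m t) (hcA w) (hcA w') (hcd w w') i
      refine this.trans ?_
      exact mul_le_mul_of_nonneg_right (hKi i) dist_nonneg
    · intro w _
      rw [continuousOn_pi]
      intro i
      simp only [hv, rhs]
      have := hf i
      fun_prop
    · intro t ht w _
      change ‖v t w‖ ≤ L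
      rw [pi_norm_le_iff_of_nonneg hL0]
      intro i
      rw [Real.norm_eq_abs]
      have := rhs_le (β := β) (ν := ν) (g := fun m => f m t) (hcA w) i
      refine this.trans ((add_le_add (hM i t ht) le_rfl).trans (hLi i))
    · push_cast
      change L * max (T - 0) (0 - 0) ≤ L * T - 0
      rw [sub_zero, sub_zero, max_eq_left hT.le, sub_zero]
  obtain ⟨α, hα0, hα⟩ := hPL.exists_eq_forall_mem_Icc_hasDerivWithinAt₀
  refine ⟨fun n t => ext N (α t) n, ?_, ?_, ?_⟩
  · intro n hn t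
    change ext N (α t) n = 0
    unfold ext
    rw [dif_neg (by omega)]
  · intro n hn
    have : α 0 = x0 := hα0
    simp only [this, ext, dif_pos (Nat.lt_succ_of_le hn), hx0]
  · intro n hn t ht
    have h1 := hasDerivWithinAt_pi.1 (hα t ht) ⟨n, Nat.lt_succ_of_le hn⟩
    have e : (fun t => ext N (α t) n) = fun t => α t ⟨n, Nat.lt_succ_of_le hn⟩ := by
      funext t
      unfold ext
      rw [dif_pos (Nat.lt_succ_of_le hn)]
    change HasDerivWithinAt (fun t => ext N (α t) n)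
      (rhs β ν (fun m => f m t) (fun m => clamp (A m) (ext N (α t) m)) n) (Icc 0 T) t
    rw [e]
    exact h1

end Pool.Agent.N134.DY
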